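import Pool.Agent.V11106.PI.Geo

/-!
# Absorbing a countable set by rotations
-/

namespace Pool.Agent.V11106.PI

open FreeGroup UpperHalfPlane Matrix MatrixGroups

/-- The rotations about `i`. -/
noncomputable def rot (t : ℝ) : SL(2, ℝ) :=
  ⟨!![Real.cos t, - Real.sin t; Real.sin t, Real.cos t], by
    rw [Matrix.det_fin_two_of]
    nlinarith [Real.sin_sq_add_cos_sq t]⟩

theorem rot_add (s t : ℝ) : rot (s + t) = rot s * rot t := by
  apply Subtype.ext
  show (!![Real.cos (s + t), - Real.sin (s + t); Real.sin (s + t), Real.cos (s + t)] :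
    Matrix (Fin 2) (Fin 2) ℝ) = !![Real.cos s, - Real.sin s; Real.sin s, Real.cos s] *
      !![Real.cos t, - Real.sin t; Real.sin t, Real.cos t]
  rw [Real.cos_add, Real.sin_add]
  ext i j
  fin_cases i <;> fin_cases j <;> simp [Matrix.mul_apply, Fin.sum_univ_two] <;> ring

theorem rot_zero : rot 0 = 1 := by
  apply Subtype.ext
  show (!![Real.cos 0, - Real.sin 0; Real.sin 0, Real.cos 0] : Matrix (Fin 2) (Fin 2) ℝ) = 1
  ext i j
  fin_cases i <;> fin_cases j <;> simp

theorem rot_neg (t : ℝ) : rot (-t) = (rot t)⁻¹ := by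
  rw [eq_inv_iff_mul_eq_one, ← rot_add]
  simp [rot_zero]

theorem rot_nsmul (n : ℕ) (t : ℝ) : rot (n * t) = rot t ^ n := by
  induction n with
  | zero => simp [rot_zero]
  | succ n ih =>
    rw [pow_succ, ← ih, ← rot_add]
    congr 1
    push_cast; ring

theorem q_rot (t : ℝ) (z : ℍ) : q (rot t • z) = q z := by
  rw [q_smul]
  have h00 : (rot t : Matrix (Fin 2) (Fin 2) ℝ) 0 0 = Real.cos t := rfl
  have h01 : (rot t : Matrix (Fin 2) (Fin 2) ℝ) 0 1 = - Real.sin t := rfl
  have h10 : (rot t : Matrix (Fin 2) (Fin 2) ℝ) 1 0 = Real.sin t := rfl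
  have h11 : (rot t : Matrix (Fin 2) (Fin 2) ℝ) 1 1 = Real.cos t := rfl
  rw [h00, h01, h10, h11]
  unfold q
  congr 1
  linear_combination (z.re ^ 2 + z.im ^ 2 + 1) * Real.sin_sq_add_cos_sq t

theorem q_I : q I = 1 := by
  unfold q
  simp

theorem eq_I_of_q (z : ℍ) (h : q z = 1) : z = I := by
  unfold q at h
  have hz := z.im_pos
  rw [div_eq_one_iff_eq (by positivity)] at h
  have h1 : z.re ^ 2 + (z.im - 1) ^ 2 = 0 := by linarith
  have h2 : z.re = 0 := by nlinarith [sq_nonneg z.re, sq_nonneg (z.im - 1)]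
  have h3 : z.im = 1 := by nlinarith [sq_nonneg z.re, sq_nonneg (z.im - 1)]
  apply UpperHalfPlane.ext
  apply Complex.ext
  · simpa using h2
  · simpa using h3

theorem rot_I (t : ℝ) : rot t • I = I := by
  apply eq_I_of_q
  rw [q_rot, q_I]

theorem I_mem_Dset : I ∈ Dset := by
  refine ⟨FreeGroup.mk [(0, true)], ?_, ?_⟩
  · exact of_ne_one 0
  · apply eq_I_of_q
    rw [q_smul]
    have h00 : (Phi (FreeGroup.mk [((0 : Fin 7), true)]) : Matrix (Fin 2) (Fin 2) ℝ) 0 0 = (20 : ℝ) / 101 := by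
      rw [Phi_letter]; simp [la, ga]
    have h01 : (Phi (FreeGroup.mk [((0 : Fin 7), true)]) : Matrix (Fin 2) (Fin 2) ℝ) 0 1 = (-99 : ℝ) / 101 := by
      rw [Phi_letter]; simp [lb, gb]
    have h10 : (Phi (FreeGroup.mk [((0 : Fin 7), true)]) : Matrix (Fin 2) (Fin 2) ℝ) 1 0 = (99 : ℝ) / 101 := by
      rw [Phi_letter]; simp [lc, gc]
    have h11 : (Phi (FreeGroup.mk [((0 : Fin 7), true)]) : Matrix (Fin 2) (Fin 2) ℝ) 1 1 = (20 : ℝ) / 101 := by
      rw [Phi_letter]; simp [ld, gd]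
    rw [h00, h01, h10, h11, I_re, I_im]
    norm_num

theorem rot_fix (t : ℝ) (z : ℍ) (hz : z ≠ I) (h : rot t • z = z) : Real.sin t = 0 :=
  (fix_two (rot t) z I h (rot_I t) hz).1

theorem countable_rot (d d' : ℍ) (hd : d ≠ I) : {t : ℝ | rot t • d = d'}.Countable := by
  by_cases h : ∃ t0, rot t0 • d = d'
  · obtain ⟨t0, h0⟩ := h
    apply Set.Countable.mono _ (Set.countable_range (fun k : ℤ => t0 + k * Real.pi))
    intro t ht
    have ht' : rot t • d = d' := ht
    have h1 : rot (t - t0) • d = d := by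
      have : t - t0 = -t0 + t := by ring
      rw [this, rot_add, mul_smul, ht', ← h0, rot_neg, inv_smul_smul]
    have h2 := rot_fix _ d hd h1
    rw [Real.sin_eq_zero_iff] at h2
    obtain ⟨k, hk⟩ := h2
    exact ⟨k, by show t0 + k * Real.pi = t; rw [hk]; ring⟩
  · have : {t : ℝ | rot t • d = d'} = ∅ := by
      ext t
      simp only [Set.mem_ofPred_eq, Set.mem_empty_iff_false, iff_false]
      intro ht
      exact h ⟨t, ht⟩
    rw [this]
    exact Set.countable_empty

/-- A rotation all of whose powers move the exceptional points to ordinary points. -/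
theorem exists_rot : ∃ t : ℝ, ∀ (n : ℕ) (d : ℍ), d ∈ Dset → d ≠ I → rot t ^ (n + 1) • d ∉ Dset := by
  by_contra hcon
  simp only [not_exists, not_forall, not_not] at hcon
  have hsub : (Set.univ : Set ℝ) ⊆ ⋃ (n : ℕ), ⋃ d ∈ Dset \ {I}, ⋃ d' ∈ Dset,
      {t : ℝ | rot ((n + 1 : ℕ) * t) • d = d'} := by
    intro t _
    obtain ⟨n, d, hd, hdI, h⟩ := hcon t
    simp only [Set.mem_iUnion]
    refine ⟨n, d, ⟨hd, hdI⟩, _, h, ?_⟩
    show rot ((n + 1 : ℕ) * t) • d = _
    rw [rot_nsmul]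
  have hc : (⋃ (n : ℕ), ⋃ d ∈ Dset \ {I}, ⋃ d' ∈ Dset,
      {t : ℝ | rot ((n + 1 : ℕ) * t) • d = d'}).Countable := by
    apply Set.countable_iUnion
    intro n
    apply Set.Countable.biUnion (Dset_countable.mono Set.sdiff_subset)
    intro d hd
    apply Set.Countable.biUnion Dset_countable
    intro d' _
    have h1 := countable_rot d d' hd.2
    have h2 : Function.Injective (fun t : ℝ => ((n + 1 : ℕ) : ℝ) * t) := by
      intro a b hab
      have : ((n + 1 : ℕ) : ℝ) ≠ 0 := by positivity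
      exact mul_left_cancel₀ this hab
    exact h1.preimage h2
  have huniv := hc.mono hsub
  rw [Set.countable_univ_iff] at huniv
  exact not_countable huniv

/-- Hilbert's hotel. -/
theorem hotel {X : Type*} (ρ : Equiv.Perm X) (D : Set X) (h : ∀ (n : ℕ), ∀ d ∈ D, (ρ ^ (n + 1)) d ∉ D) :
    ∃ β : X ≃ {x // x ∉ D}, ∀ x, (β x : X) = x ∨ (β x : X) = ρ x := by
  classical
  let U : Set X := {x | ∃ n : ℕ, ∃ d ∈ D, (ρ ^ n) d = x}
  have hU : ∀ x ∈ U, ρ x ∈ U ∧ ρ x ∉ D := by
    rintro x ⟨n, d, hd, rfl⟩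
    have e : ρ ((ρ ^ n) d) = (ρ ^ (n + 1)) d := by
      rw [pow_succ', Equiv.Perm.mul_apply]
    refine ⟨⟨n + 1, d, hd, e.symm⟩, ?_⟩
    rw [e]
    exact h n d hd
  have hDU : ∀ x ∈ D, x ∈ U := fun x hx => ⟨0, x, hx, rfl⟩
  let f : X → {x // x ∉ D} := fun x =>
    if hx : x ∈ U then ⟨ρ x, (hU x hx).2⟩ else ⟨x, fun hd => hx (hDU x hd)⟩
  have f1 : ∀ x, x ∈ U → (f x : X) = ρ x := by
    intro x hx; simp only [f, dif_pos hx]
  have f2 : ∀ x, x ∉ U → (f x : X) = x := by
    intro x hx; simp only [f, dif_neg hx]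
  have hbij : Function.Bijective f := by
    constructor
    · intro x y hxy
      have hxy' : (f x : X) = f y := congrArg Subtype.val hxy
      by_cases hx : x ∈ U <;> by_cases hy : y ∈ U
      · rw [f1 x hx, f1 y hy] at hxy'
        exact ρ.injective hxy'
      · rw [f1 x hx, f2 y hy] at hxy'
        exact absurd (hxy' ▸ (hU x hx).1) hy
      · rw [f2 x hx, f1 y hy] at hxy'
        exact absurd (hxy'.symm ▸ (hU y hy).1) hx
      · rw [f2 x hx, f2 y hy] at hxy'
        exact hxy'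
    · rintro ⟨y, hy⟩
      by_cases hyU : y ∈ U
      · obtain ⟨n, d, hd, hn⟩ := hyU
        cases n with
        | zero =>
          exfalso
          apply hy
          have : d = y := by simpa using hn
          rw [← this]; exact hd
        | succ n =>
          have hx : (ρ ^ n) d ∈ U := ⟨n, d, hd, rfl⟩
          refine ⟨(ρ ^ n) d, Subtype.ext ?_⟩
          rw [f1 _ hx]
          show ρ ((ρ ^ n) d) = y
          rw [← hn, pow_succ', Equiv.Perm.mul_apply]
      · exact ⟨y, Subtype.ext (f2 y hyU)⟩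
  refine ⟨Equiv.ofBijective f hbij, ?_⟩
  intro x
  show (f x : X) = x ∨ (f x : X) = ρ x
  by_cases hx : x ∈ U
  · right; exact f1 x hx
  · left; exact f2 x hx

/-- The punctured disc. -/
def Xs : Set ℍ := {z | q z ≤ 4 ∧ z ≠ I}

theorem rot_mem (t : ℝ) (z : ℍ) (hz : z ∈ Xs) : rot t • z ∈ Xs := by
  refine ⟨by rw [q_rot]; exact hz.1, ?_⟩
  intro h
  apply hz.2
  have := congrArg (fun w => (rot t)⁻¹ • w) h
  simp only [inv_smul_smul] at this
  rw [this, ← rot_neg, rot_I]

/-- The rotation of the punctured disc. -/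
noncomputable def rotPerm (t : ℝ) : Equiv.Perm Xs where
  toFun z := ⟨rot t • z.1, rot_mem t z.1 z.2⟩
  invFun z := ⟨rot (-t) • z.1, rot_mem (-t) z.1 z.2⟩
  left_inv z := by
    apply Subtype.ext
    show rot (-t) • rot t • z.1 = z.1
    rw [rot_neg, inv_smul_smul]
  right_inv z := by
    apply Subtype.ext
    show rot t • rot (-t) • z.1 = z.1
    rw [rot_neg, smul_inv_smul]

theorem rotPerm_pow (t : ℝ) (n : ℕ) (z : Xs) : (((rotPerm t) ^ n) z : ℍ) = rot t ^ n • z.1 := by
  induction n with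
  | zero => simp
  | succ n ih =>
    rw [pow_succ', Equiv.Perm.mul_apply, pow_succ', mul_smul, ← ih]
    rfl

/-- The isometry of a matrix. -/
noncomputable def iso (s : SL(2, ℝ)) : ℍ ≃ᵢ ℍ := IsometryEquiv.constSMul s

theorem iso_apply (s : SL(2, ℝ)) (z : ℍ) : iso s z = s • z := rfl

/-- A free action on the punctured disc by finitely many isometries. -/
theorem exists_action_Xs : ∃ A : FreeGroup (Fin 2) →* Equiv.Perm Xs,
    (∀ w x, A w x = x → w = 1) ∧
    ∃ s : Bool × L7 × Bool → SL(2, ℝ), ∀ (a : Fin 2) (x : Xs), ∃ k,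
      (A (FreeGroup.of a) x : ℍ) = s k • x.1 := by
  obtain ⟨t, ht⟩ := exists_rot
  obtain ⟨β, hβ⟩ := hotel (rotPerm t) {x : Xs | x.1 ∈ Dset} (by
    intro n d hd hcon
    have h1 : (((rotPerm t) ^ (n + 1)) d : ℍ) ∈ Dset := hcon
    rw [rotPerm_pow] at h1
    exact ht n d.1 hd d.2.2 h1)
  obtain ⟨A, hA1, hA2⟩ := exists_action
  let e : {x : Xs // x ∉ {x : Xs | x.1 ∈ Dset}} ≃ Yset :=
    { toFun := fun x => ⟨x.1.1, x.1.2.1, x.2⟩
      invFun := fun y => ⟨⟨y.1, y.2.1, fun h => y.2.2 (by rw [h]; exact I_mem_Dset)⟩, y.2.2⟩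
      left_inv := fun x => rfl
      right_inv := fun y => rfl }
  let Θ : Xs ≃ Yset := β.trans e
  have hΘ : ∀ x : Xs, ∃ b : Bool, (Θ x : ℍ) = (if b then rot t else 1) • x.1 := by
    intro x
    rcases hβ x with h | h
    · refine ⟨false, ?_⟩
      show ((β x).1 : ℍ) = _
      rw [h]; simp
    · refine ⟨true, ?_⟩
      show ((β x).1 : ℍ) = _
      rw [h]
      rfl
  let A' : FreeGroup (Fin 2) →* Equiv.Perm Xs :=
    { toFun := fun w => Θ.trans ((A w).trans Θ.symm)
      map_one' := by ext x; simp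
      map_mul' := by intro w w'; ext x; simp }
  refine ⟨A', ?_, fun k => (if k.2.2 then (rot t)⁻¹ else 1) * (Phi (FreeGroup.mk [k.2.1]) *
    (if k.1 then rot t else 1)), ?_⟩
  · intro w x h
    apply hA1 w (Θ x)
    have h1 : Θ.symm (A w (Θ x)) = x := h
    exact (Equiv.symm_apply_eq Θ).1 h1
  · intro a x
    obtain ⟨b, hb⟩ := hΘ x
    obtain ⟨l, hl⟩ := hA2 a (Θ x)
    obtain ⟨b', hb'⟩ := hΘ (A' (FreeGroup.of a) x)
    have h1 : Θ (A' (FreeGroup.of a) x) = A (FreeGroup.of a) (Θ x) := by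
      show Θ (Θ.symm (A (FreeGroup.of a) (Θ x))) = _
      simp
    rw [h1, hl, hb] at hb'
    refine ⟨(b, l, b'), ?_⟩
    show _ = ((if b' then (rot t)⁻¹ else 1) * (Phi (FreeGroup.mk [l]) *
      (if b then rot t else 1)) : SL(2, ℝ)) • x.1
    rw [mul_smul, mul_smul, hb']
    cases b' <;> simp

theorem cosh_eq_q (z : ℍ) : Real.cosh (dist z I) = q z := by
  rw [cosh_dist']
  unfold q
  simp

theorem Xs_bounded : Bornology.IsBounded Xs := by
  apply (Metric.isBounded_closedBall (x := I) (r := (4 : ℝ))).subset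
  intro z hz
  rw [Metric.mem_closedBall]
  have h1 : Real.cosh (dist z I) ≤ 4 := by rw [cosh_eq_q]; exact hz.1
  have h2 : dist z I ≤ Real.sinh (dist z I) := Real.self_le_sinh_iff.2 dist_nonneg
  have h3 := Real.sinh_lt_cosh (dist z I)
  linarith

theorem Xs_interior : (interior Xs).Nonempty := by
  let O : Set ℍ := {z | Real.cosh (dist z I) < 4} ∩ {I}ᶜ
  have hO : IsOpen O := by
    apply IsOpen.inter
    · exact isOpen_lt (Real.continuous_cosh.comp (continuous_id.dist continuous_const))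
        continuous_const
    · exact isOpen_compl_singleton
  have hsub : O ⊆ Xs := by
    rintro z ⟨h1, h2⟩
    refine ⟨?_, h2⟩
    have h1' : Real.cosh (dist z I) < 4 := h1
    rw [cosh_eq_q] at h1'
    exact h1'.le
  let z0 : ℍ := ⟨⟨0, 2⟩, by norm_num⟩
  have hre : z0.re = 0 := rfl
  have him : z0.im = 2 := rfl
  refine ⟨z0, interior_maximal hsub hO ⟨?_, ?_⟩⟩
  · show Real.cosh (dist z0 I) < 4
    rw [cosh_eq_q]
    unfold q
    rw [hre, him]; norm_num
  · intro h
    have h1 : z0 = I := h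
    have h2 : z0.im = 1 := by rw [h1, I_im]
    rw [him] at h2
    norm_num at h2

end Pool.Agent.V11106.PI
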