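import Pool.Agent.V11106.PI.Tree

/-!
# A free group of seven isometries of the hyperbolic plane

Six translations and one rotation with matrices over `ℤ[1/101]`, which generate a free group by their
reductions modulo `101`.
-/

namespace Pool.Agent.V11106.PI

open FreeGroup UpperHalfPlane Matrix MatrixGroups

/-- The letters of the free group of rank seven. -/
abbrev L7 := Fin 7 × Bool

/-- Entries of `101` times the generators. -/
def ga : Fin 7 → ℤ := ![20, 113, 65, 137, 73, 149, 85]
/-- Entries of `101` times the generators. -/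
def gb : Fin 7 → ℤ := ![-99, 46, 2, 38, 26, 26, 38]
/-- Entries of `101` times the generators. -/
def gc : Fin 7 → ℤ := ![99, 46, 2, 38, 26, 26, 38]
/-- Entries of `101` times the generators. -/
def gd : Fin 7 → ℤ := ![20, 109, 157, 85, 149, 73, 137]

/-- Entries of `101` times a letter. -/
def la (x : L7) : ℤ := if x.2 then ga x.1 else gd x.1
/-- Entries of `101` times a letter. -/
def lb (x : L7) : ℤ := if x.2 then gb x.1 else - gb x.1
/-- Entries of `101` times a letter. -/
def lc (x : L7) : ℤ := if x.2 then gc x.1 else - gc x.1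
/-- Entries of `101` times a letter. -/
def ld (x : L7) : ℤ := if x.2 then gd x.1 else ga x.1

/-- The slope of the image of a letter modulo `101`. -/
def slp (x : L7) : ℤ :=
  if x.2 then (![10, 88, 28, 74, 64, 30, 86] : Fin 7 → ℤ) x.1
  else (![91, 70, 18, 15, 71, 37, 27] : Fin 7 → ℤ) x.1

theorem gdet : ∀ i : Fin 7, ga i * gd i - gb i * gc i = 10201 := by decide

theorem ldet : ∀ x : L7, la x * ld x - lb x * lc x = 10201 := by decide

theorem slp_lc : ∀ x : L7, (lc x - slp x * la x) % 101 = 0 := by decide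

theorem slp_ld : ∀ x : L7, (ld x - slp x * lb x) % 101 = 0 := by decide

theorem la_ne : ∀ x : L7, la x % 101 ≠ 0 := by decide

theorem la_lb_ne : ∀ x y : L7, y ≠ linv x → (la x + lb x * slp y) % 101 ≠ 0 := by decide

/-- `101` times a letter, as an integer matrix. -/
def lm (x : L7) : Matrix (Fin 2) (Fin 2) ℤ := !![la x, lb x; lc x, ld x]

/-- The product of integer matrices along a word. -/
def pm : List L7 → Matrix (Fin 2) (Fin 2) ℤ
  | [] => 1
  | x :: L => lm x * pm L

theorem pm_cons (x : L7) (L : List L7) : pm (x :: L) =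
    !![la x * pm L 0 0 + lb x * pm L 1 0, la x * pm L 0 1 + lb x * pm L 1 1;
       lc x * pm L 0 0 + ld x * pm L 1 0, lc x * pm L 0 1 + ld x * pm L 1 1] := by
  show lm x * pm L = _
  ext i j
  fin_cases i <;> fin_cases j <;> simp [lm, Matrix.mul_apply, Fin.sum_univ_two]

theorem pm_det : ∀ L : List L7, pm L 0 0 * pm L 1 1 - pm L 0 1 * pm L 1 0 = 10201 ^ L.length := by
  intro L
  induction L with
  | nil => simp [pm]
  | cons x L ih =>
    rw [pm_cons]
    simp only [Matrix.of_apply, Matrix.cons_val', Matrix.cons_val_zero, Matrix.cons_val_one,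
      Matrix.cons_val_fin_one, List.length_cons, pow_succ]
    rw [← ih]
    have := ldet x
    linear_combination (pm L 0 0 * pm L 1 1 - pm L 0 1 * pm L 1 0) * this

theorem red7 (x y : L7) (L : List L7) (h : IsReduced (x :: y :: L)) : y ≠ linv x := by
  rw [isReduced_cons_cons] at h
  have h1 := h.1
  intro h2
  rw [h2] at h1
  have := h1 rfl
  simp [linv] at this

theorem red7_tail {x : L7} {L : List L7} (h : IsReduced (x :: L)) : IsReduced L := by
  cases L with
  | nil => exact IsReduced.nil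
  | cons y L => exact (isReduced_cons_cons.1 h).2

/-- Modulo `101` the matrix of a nonempty reduced word has rank one and the slope of its first
letter. -/
theorem pm_mod : ∀ (L : List L7) (x : L7), IsReduced (x :: L) →
    (101 : ℤ) ∣ pm (x :: L) 1 0 - slp x * pm (x :: L) 0 0 ∧
    (101 : ℤ) ∣ pm (x :: L) 1 1 - slp x * pm (x :: L) 0 1 ∧
    ¬ ((101 : ℤ) ∣ pm (x :: L) 0 0 ∧ (101 : ℤ) ∣ pm (x :: L) 0 1) := by
  have hp : Prime (101 : ℤ) := by
    rw [Int.prime_iff_natAbs_prime]; norm_num
  intro L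
  induction L with
  | nil =>
    intro x _
    rw [pm_cons]
    simp only [pm, Matrix.of_apply, Matrix.cons_val', Matrix.cons_val_zero, Matrix.cons_val_one,
      Matrix.cons_val_fin_one, Matrix.one_apply_eq, ne_eq, zero_ne_one, not_false_eq_true,
      Matrix.one_apply_ne, one_ne_zero, mul_one, mul_zero, add_zero, zero_add]
    refine ⟨Int.dvd_of_emod_eq_zero (slp_lc x), Int.dvd_of_emod_eq_zero (slp_ld x), ?_⟩
    intro h
    exact la_ne x (Int.emod_eq_zero_of_dvd h.1)
  | cons y L ih =>
    intro x hx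
    obtain ⟨h1, h2, h3⟩ := ih y (red7_tail hx)
    have hne := la_lb_ne x y (red7 x y L hx)
    rw [pm_cons x]
    simp only [Matrix.of_apply, Matrix.cons_val', Matrix.cons_val_zero, Matrix.cons_val_one,
      Matrix.cons_val_fin_one]
    set P := pm (y :: L) with hP
    have hc := Int.dvd_of_emod_eq_zero (slp_lc x)
    have hd := Int.dvd_of_emod_eq_zero (slp_ld x)
    have hk : ¬ (101 : ℤ) ∣ la x + lb x * slp y := fun h => hne (Int.emod_eq_zero_of_dvd h)
    refine ⟨?_, ?_, ?_⟩
    · have : lc x * P 0 0 + ld x * P 1 0 - slp x * (la x * P 0 0 + lb x * P 1 0)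
          = (lc x - slp x * la x) * P 0 0 + (ld x - slp x * lb x) * P 1 0 := by ring
      rw [this]
      exact dvd_add (Dvd.dvd.mul_right hc _) (Dvd.dvd.mul_right hd _)
    · have : lc x * P 0 1 + ld x * P 1 1 - slp x * (la x * P 0 1 + lb x * P 1 1)
          = (lc x - slp x * la x) * P 0 1 + (ld x - slp x * lb x) * P 1 1 := by ring
      rw [this]
      exact dvd_add (Dvd.dvd.mul_right hc _) (Dvd.dvd.mul_right hd _)
    · rintro ⟨h4, h5⟩
      apply h3
      have e1 : (101 : ℤ) ∣ (la x + lb x * slp y) * P 0 0 := by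
        have : (la x + lb x * slp y) * P 0 0 =
          (la x * P 0 0 + lb x * P 1 0) - lb x * (P 1 0 - slp y * P 0 0) := by ring
        rw [this]
        exact dvd_sub h4 (Dvd.dvd.mul_left h1 _)
      have e2 : (101 : ℤ) ∣ (la x + lb x * slp y) * P 0 1 := by
        have : (la x + lb x * slp y) * P 0 1 =
          (la x * P 0 1 + lb x * P 1 1) - lb x * (P 1 1 - slp y * P 0 1) := by ring
        rw [this]
        exact dvd_sub h5 (Dvd.dvd.mul_left h2 _)
      exact ⟨(hp.dvd_or_dvd e1).resolve_left hk, (hp.dvd_or_dvd e2).resolve_left hk⟩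

/-- The matrix of a nonempty reduced word is not scalar. -/
theorem pm_not_scalar (L : List L7) (x : L7) (h : IsReduced (x :: L))
    (h01 : pm (x :: L) 0 1 = 0) (h10 : pm (x :: L) 1 0 = 0)
    (hd : pm (x :: L) 0 0 = pm (x :: L) 1 1) : False := by
  have hp : Prime (101 : ℤ) := by
    rw [Int.prime_iff_natAbs_prime]; norm_num
  obtain ⟨-, -, h3⟩ := pm_mod L x h
  apply h3
  rw [h01]
  refine ⟨?_, dvd_zero _⟩
  have hdet := pm_det (x :: L)
  rw [h01, ← hd] at hdet
  have h4 : (101 : ℤ) ∣ pm (x :: L) 0 0 * pm (x :: L) 0 0 := by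
    have : pm (x :: L) 0 0 * pm (x :: L) 0 0 = 10201 ^ (x :: L).length := by
      rw [← hdet]; ring
    rw [this, List.length_cons, pow_succ]
    exact Dvd.dvd.mul_left (by norm_num) _
  rcases hp.dvd_or_dvd h4 with h | h <;> exact h

/-- The generators. -/
noncomputable def gen (i : Fin 7) : SL(2, ℝ) :=
  ⟨!![(ga i : ℝ) / 101, (gb i : ℝ) / 101; (gc i : ℝ) / 101, (gd i : ℝ) / 101], by
    rw [Matrix.det_fin_two_of]
    have := gdet i
    have h : (ga i : ℝ) * gd i - gb i * gc i = 10201 := by exact_mod_cast this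
    linarith⟩

/-- The homomorphism from the free group of rank seven. -/
noncomputable def Phi : FreeGroup (Fin 7) →* SL(2, ℝ) := FreeGroup.lift gen

theorem Phi_letter (x : L7) : (Phi (FreeGroup.mk [x]) : Matrix (Fin 2) (Fin 2) ℝ) =
    !![(la x : ℝ) / 101, (lb x : ℝ) / 101; (lc x : ℝ) / 101, (ld x : ℝ) / 101] := by
  obtain ⟨i, b⟩ := x
  cases b with
  | true =>
    have : Phi (FreeGroup.mk [(i, true)]) = gen i := by
      show Phi (FreeGroup.of i) = gen i
      simp [Phi]
    rw [this]
    simp [gen, la, lb, lc, ld]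
  | false =>
    have : Phi (FreeGroup.mk [(i, false)]) = (gen i)⁻¹ := by
      show Phi ((FreeGroup.of i)⁻¹) = (gen i)⁻¹
      simp [Phi]
    rw [this, Matrix.SpecialLinearGroup.coe_inv]
    simp [gen, la, lb, lc, ld, Matrix.adjugate_fin_two, neg_div]

theorem Phi_mk : ∀ L : List L7, ∀ i j, (Phi (FreeGroup.mk L) : Matrix (Fin 2) (Fin 2) ℝ) i j =
    (pm L i j : ℝ) / 101 ^ L.length := by
  intro L
  induction L with
  | nil =>
    intro i j
    have : Phi (FreeGroup.mk []) = 1 := by
      show Phi 1 = 1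
      simp
    rw [this]
    fin_cases i <;> fin_cases j <;> simp [pm]
  | cons x L ih =>
    intro i j
    have h1 : FreeGroup.mk (x :: L) = FreeGroup.mk [x] * FreeGroup.mk L := by
      rw [mul_mk]; rfl
    rw [h1, _root_.map_mul, Matrix.SpecialLinearGroup.coe_mul, Matrix.mul_apply, Fin.sum_univ_two,
      Phi_letter, ih, ih, pm_cons]
    fin_cases i <;> fin_cases j <;> simp <;> ring

/-- A matrix that fixes a point of the upper half-plane. -/
theorem fix_eq (s : SL(2, ℝ)) (z : ℍ) (h : s • z = z) :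
    2 * s 1 0 * z.re = s 0 0 - s 1 1 ∧ s 0 1 = - s 1 0 * (z.re ^ 2 + z.im ^ 2) := by
  have h1 : ((s • z : ℍ) : ℂ) = (z : ℂ) := by rw [h]
  rw [coe_specialLinearGroup_apply] at h1
  have hdet : s 0 0 * s 1 1 - s 0 1 * s 1 0 = 1 := by
    have := s.det_coe
    rw [Matrix.det_fin_two] at this
    exact this
  have hz := z.im_pos
  have hden : ((s 1 0 : ℝ) : ℂ) * z + ((s 1 1 : ℝ) : ℂ) ≠ 0 := by
    intro h0
    have h2 := congrArg Complex.im h0
    have h3 := congrArg Complex.re h0
    simp at h2 h3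
    rcases h2 with h2 | h2
    · rw [h2] at h3 hdet
      simp at h3
      rw [h3] at hdet
      simp at hdet
    · exact absurd h2 hz.ne'
  have h2 : ((s 0 0 : ℝ) : ℂ) * z + ((s 0 1 : ℝ) : ℂ) =
      z * (((s 1 0 : ℝ) : ℂ) * z + ((s 1 1 : ℝ) : ℂ)) := by
    have h3 : (((s 0 0 : ℝ) : ℂ) * z + ((s 0 1 : ℝ) : ℂ)) /
      (((s 1 0 : ℝ) : ℂ) * z + ((s 1 1 : ℝ) : ℂ)) = z := h1
    rw [div_eq_iff hden] at h3
    exact h3
  have hre := congrArg Complex.re h2
  have him := congrArg Complex.im h2
  simp at hre him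
  have k1 : 2 * s 1 0 * z.re = s 0 0 - s 1 1 := by
    have : z.im * (2 * s 1 0 * z.re - (s 0 0 - s 1 1)) = 0 := by linarith
    rcases mul_eq_zero.1 this with h | h
    · exact absurd h hz.ne'
    · linarith
  refine ⟨k1, ?_⟩
  have : s 0 0 = 2 * s 1 0 * z.re + s 1 1 := by linarith
  rw [this] at hre
  linarith

/-- A matrix which fixes two points is scalar. -/
theorem fix_two (s : SL(2, ℝ)) (z w : ℍ) (hz : s • z = z) (hw : s • w = w) (hne : z ≠ w) :
    s 1 0 = 0 ∧ s 0 1 = 0 ∧ s 0 0 = s 1 1 := by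
  obtain ⟨h1, h2⟩ := fix_eq s z hz
  obtain ⟨h3, h4⟩ := fix_eq s w hw
  by_cases hc : s 1 0 = 0
  · rw [hc] at h1 h2
    refine ⟨hc, by linarith, by linarith⟩
  · exfalso
    apply hne
    have hre : z.re = w.re := by
      have : s 1 0 * (z.re - w.re) = 0 := by linarith
      rcases mul_eq_zero.1 this with h | h
      · exact absurd h hc
      · linarith
    have him : z.im = w.im := by
      have h5 : s 1 0 * (z.im ^ 2 - w.im ^ 2) = 0 := by
        rw [hre] at h2
        linarith
      rcases mul_eq_zero.1 h5 with h | h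
      · exact absurd h hc
      · have h6 : (z.im - w.im) * (z.im + w.im) = 0 := by linarith
        rcases mul_eq_zero.1 h6 with h | h
        · linarith
        · have := z.im_pos; have := w.im_pos; linarith
    apply UpperHalfPlane.ext
    apply Complex.ext
    · exact hre
    · exact him

/-- Two fixed points only for the trivial word. -/
theorem Phi_fix_two (u : FreeGroup (Fin 7)) (z w : ℍ) (hz : Phi u • z = z) (hw : Phi u • w = w)
    (hne : z ≠ w) : u = 1 := by
  by_contra hu
  obtain ⟨h1, h2, h3⟩ := fix_two _ z w hz hw hne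
  have hL : u.toWord ≠ [] := fun h => hu (toWord_eq_nil_iff.1 h)
  obtain ⟨x, L, hxL⟩ := List.exists_cons_of_ne_nil hL
  have hred : IsReduced (x :: L) := by rw [← hxL]; exact isReduced_toWord
  have hmk : u = FreeGroup.mk (x :: L) := by rw [← hxL, mk_toWord]
  rw [hmk, Phi_mk] at h1 h2 h3
  rw [Phi_mk] at h3
  have hp : (0 : ℝ) < 101 ^ (x :: L).length := by positivity
  have e1 : pm (x :: L) 1 0 = 0 := by
    rcases div_eq_zero_iff.1 h1 with h | h
    · exact_mod_cast h
    · exact absurd h hp.ne'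
  have e2 : pm (x :: L) 0 1 = 0 := by
    rcases div_eq_zero_iff.1 h2 with h | h
    · exact_mod_cast h
    · exact absurd h hp.ne'
  have e3 : pm (x :: L) 0 0 = pm (x :: L) 1 1 := by
    have := (div_left_inj' hp.ne').1 h3
    exact_mod_cast this
  exact pm_not_scalar L x hred e2 e1 e3

/-- The points with a nontrivial stabilizer. -/
def Dset : Set ℍ := {z | ∃ u : FreeGroup (Fin 7), u ≠ 1 ∧ Phi u • z = z}

theorem Dset_countable : Dset.Countable := by
  have : Dset = ⋃ u : {u : FreeGroup (Fin 7) // u ≠ 1}, {z : ℍ | Phi u.1 • z = z} := by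
    ext z
    simp only [Dset, Set.mem_ofPred_eq, Set.mem_iUnion, Subtype.exists, exists_prop]
  rw [this]
  have : Countable (FreeGroup (Fin 7)) :=
    Function.Injective.countable (f := FreeGroup.toWord) toWord_injective
  apply Set.countable_iUnion
  rintro ⟨u, hu⟩
  apply Set.Subsingleton.countable
  intro z hz w hw
  by_contra hne
  exact hu (Phi_fix_two u z w hz hw hne)

theorem not_mem_Dset_smul (u : FreeGroup (Fin 7)) (z : ℍ) (hz : z ∉ Dset) : Phi u • z ∉ Dset := by
  rintro ⟨v, hv, h⟩
  apply hz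
  refine ⟨u⁻¹ * v * u, ?_, ?_⟩
  · intro h1
    apply hv
    have : v = u * (u⁻¹ * v * u) * u⁻¹ := by group
    rw [this, h1]
    group
  · rw [_root_.map_mul, _root_.map_mul, _root_.map_inv, mul_smul, mul_smul, h, inv_smul_smul]

/-- The action is free outside the exceptional points. -/
theorem free_smul (u v : FreeGroup (Fin 7)) (z : ℍ) (hz : z ∉ Dset) (h : Phi u • z = Phi v • z) :
    u = v := by
  by_contra hne
  apply hz
  refine ⟨v⁻¹ * u, ?_, ?_⟩
  · intro h1
    apply hne
    exact (inv_mul_eq_one.1 h1).symm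
  · rw [_root_.map_mul, _root_.map_inv, mul_smul, h, inv_smul_smul]

end Pool.Agent.V11106.PI
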