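import Pool.Agent.V11106.PI.Free

/-!
# A free action of the free group of rank two on a hyperbolic disc without a countable set
-/

namespace Pool.Agent.V11106.PI

open FreeGroup UpperHalfPlane Matrix MatrixGroups

/-- The hyperbolic cosine of the distance from `i`. -/
noncomputable def q (z : ℍ) : ℝ := (z.re ^ 2 + z.im ^ 2 + 1) / (2 * z.im)

theorem smul_eqs (s : SL(2, ℝ)) (z : ℍ) :
    (s • z).im * ((s 1 0 * z.re + s 1 1) ^ 2 + (s 1 0 * z.im) ^ 2) = z.im ∧
    ((s • z).re ^ 2 + (s • z).im ^ 2) * ((s 1 0 * z.re + s 1 1) ^ 2 + (s 1 0 * z.im) ^ 2) =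
      (s 0 0 * z.re + s 0 1) ^ 2 + (s 0 0 * z.im) ^ 2 := by
  have h1 := coe_specialLinearGroup_apply s z
  have hdet : s 0 0 * s 1 1 - s 0 1 * s 1 0 = 1 := by
    have := s.det_coe
    rw [Matrix.det_fin_two] at this
    exact this
  have hz := z.im_pos
  have hden : ((s 1 0 : ℝ) : ℂ) * z + ((s 1 1 : ℝ) : ℂ) ≠ 0 := by
    intro h0
    have h2 := congrArg Complex.im h0
    have h3 := congrArg Complex.re h0
    simp at h2 h3
    rcases h2 with h2 | h2
    · rw [h2] at h3 hdet
      simp at h3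
      rw [h3] at hdet
      simp at hdet
    · exact absurd h2 hz.ne'
  have h2 : ((s 0 0 : ℝ) : ℂ) * z + ((s 0 1 : ℝ) : ℂ) =
      ((s • z : ℍ) : ℂ) * (((s 1 0 : ℝ) : ℂ) * z + ((s 1 1 : ℝ) : ℂ)) := by
    have h3 : (((s 0 0 : ℝ) : ℂ) * z + ((s 0 1 : ℝ) : ℂ)) /
      (((s 1 0 : ℝ) : ℂ) * z + ((s 1 1 : ℝ) : ℂ)) = ((s • z : ℍ) : ℂ) := h1.symm
    rw [div_eq_iff hden] at h3
    exact h3
  have hre := congrArg Complex.re h2
  have him := congrArg Complex.im h2
  simp at hre him
  set a := s 0 0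
  set b := s 0 1
  set c := s 1 0
  set d := s 1 1
  set x := z.re
  set y := z.im
  set u := (s • z).re
  set v := (s • z).im
  constructor
  · have e1 : v * ((c * x + d) ^ 2 + (c * y) ^ 2) =
        (c * x + d) * (u * (c * y) + v * (c * x + d)) - (c * y) * (u * (c * x + d) - v * (c * y)) := by
      ring
    rw [e1, ← hre, ← him]
    linear_combination y * hdet
  · rw [hre, him]
    ring

theorem q_smul (s : SL(2, ℝ)) (z : ℍ) : q (s • z) =
    ((s 0 0 * z.re + s 0 1) ^ 2 + (s 0 0 * z.im) ^ 2 + (s 1 0 * z.re + s 1 1) ^ 2 +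
      (s 1 0 * z.im) ^ 2) / (2 * z.im) := by
  obtain ⟨h1, h2⟩ := smul_eqs s z
  have hz := z.im_pos
  have hw := (s • z).im_pos
  unfold q
  set n := (s 1 0 * z.re + s 1 1) ^ 2 + (s 1 0 * z.im) ^ 2
  have hn : 0 < n := by
    by_contra h
    have : (s • z).im * n ≤ 0 := mul_nonpos_of_nonneg_of_nonpos hw.le (not_lt.1 h)
    linarith
  rw [div_eq_div_iff (by positivity) (by positivity)]
  have e : (s 0 0 * z.re + s 0 1) ^ 2 + (s 0 0 * z.im) ^ 2 + (s 1 0 * z.re + s 1 1) ^ 2 +
      (s 1 0 * z.im) ^ 2 = ((s • z).re ^ 2 + (s • z).im ^ 2) * n + n := by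
    rw [h2]; simp only [n]; ring
  rw [e, ← h1]
  ring

theorem q_letter (x : L7) (z : ℍ) : q (Phi (FreeGroup.mk [x]) • z) ≤ 4 ↔
    ((la x * z.re + lb x) ^ 2 + (la x * z.im) ^ 2 + (lc x * z.re + ld x) ^ 2 +
      (lc x * z.im) ^ 2) ≤ 81608 * z.im := by
  rw [q_smul]
  have hz := z.im_pos
  have h00 : (Phi (FreeGroup.mk [x]) : Matrix (Fin 2) (Fin 2) ℝ) 0 0 = (la x : ℝ) / 101 := by
    rw [Phi_letter]; rfl
  have h01 : (Phi (FreeGroup.mk [x]) : Matrix (Fin 2) (Fin 2) ℝ) 0 1 = (lb x : ℝ) / 101 := by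
    rw [Phi_letter]; rfl
  have h10 : (Phi (FreeGroup.mk [x]) : Matrix (Fin 2) (Fin 2) ℝ) 1 0 = (lc x : ℝ) / 101 := by
    rw [Phi_letter]; rfl
  have h11 : (Phi (FreeGroup.mk [x]) : Matrix (Fin 2) (Fin 2) ℝ) 1 1 = (ld x : ℝ) / 101 := by
    rw [Phi_letter]; rfl
  rw [h00, h01, h10, h11, div_le_iff₀ (by positivity)]
  constructor
  · intro h; nlinarith
  · intro h; nlinarith

/-- The main inequality. -/
theorem four_cases (P y E1 E2 : ℝ) (hy : 0 < y) (hP : P ≤ 8 * y)
    (hE : E1 ^ 2 + E2 ^ 2 = 104482080 * (P ^ 2 - 4 * y ^ 2)) :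
    14441 * P + E1 ≤ 81608 * y ∨ 14441 * P - E1 ≤ 81608 * y ∨
    14441 * P + E2 ≤ 81608 * y ∨ 14441 * P - E2 ≤ 81608 * y := by
  by_contra hcon
  simp only [not_or, not_le] at hcon
  obtain ⟨h1, h2, h3, h4⟩ := hcon
  set F := 14441 * P - 81608 * y with hF
  have f1 : -F < E1 := by linarith
  have f2 : E1 < F := by linarith
  have f3 : -F < E2 := by linarith
  have f4 : E2 < F := by linarith
  have g1 : E1 ^ 2 < F ^ 2 := by nlinarith
  have g2 : E2 ^ 2 < F ^ 2 := by nlinarith
  have hF0 : 0 < F := by linarith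
  have hFP : F ≤ 4240 * P := by rw [hF]; linarith
  have hPp : 0 < P := by linarith
  have g3 : F ^ 2 ≤ 17977600 * P ^ 2 := by nlinarith
  have g4 : 81608 * y < 14441 * P := by linarith
  have g5 : (81608 * y) ^ 2 < (14441 * P) ^ 2 := by
    apply pow_lt_pow_left₀ g4 (by positivity) (by norm_num)
  nlinarith [sq_nonneg P, mul_pos hPp hPp]

/-- A letter keeps a point in the disc. -/
def opn (z : ℍ) (x : L7) : Prop := q (Phi (FreeGroup.mk [x]) • z) ≤ 4

theorem q_le_iff (z : ℍ) : q z ≤ 4 ↔ z.re ^ 2 + z.im ^ 2 + 1 ≤ 8 * z.im := by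
  unfold q
  have hz := z.im_pos
  rw [div_le_iff₀ (by positivity)]
  constructor <;> intro h <;> linarith

theorem open_rot (z : ℍ) (hz : q z ≤ 4) (b : Bool) : opn z (0, b) := by
  unfold opn
  rw [q_letter]
  rw [q_le_iff] at hz
  cases b <;> simp [la, lb, lc, ld, ga, gb, gc, gd] <;> nlinarith

/-- The six translations in three pairs. -/
theorem open_pair (z : ℍ) (hz : q z ≤ 4) (i j : Fin 7) (t b : ℤ)
    (hi1 : ga i = 111 + t) (hi2 : gb i = b) (hi3 : gc i = b) (hi4 : gd i = 111 - t)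
    (hj1 : ga j = 111 - b) (hj2 : gb j = t) (hj3 : gc j = t) (hj4 : gd j = 111 + b)
    (htb : t ^ 2 + b ^ 2 = 2120) : ∃ e : Bool, opn z (i, e) ∨ opn z (j, e) := by
  rw [q_le_iff] at hz
  have htb' : (t : ℝ) ^ 2 + (b : ℝ) ^ 2 = 2120 := by exact_mod_cast htb
  set x := z.re with hx
  set y := z.im with hy
  have hyp : 0 < y := z.im_pos
  have key := four_cases (x ^ 2 + y ^ 2 + 1) y
    (222 * t * (x ^ 2 + y ^ 2 - 1) + 444 * b * x) (-222 * b * (x ^ 2 + y ^ 2 - 1) + 444 * t * x)
    hyp hz (by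
      have : (222 * (t : ℝ) * (x ^ 2 + y ^ 2 - 1) + 444 * b * x) ^ 2 +
        (-222 * (b : ℝ) * (x ^ 2 + y ^ 2 - 1) + 444 * t * x) ^ 2 =
        ((t : ℝ) ^ 2 + (b : ℝ) ^ 2) * (49284 * ((x ^ 2 + y ^ 2 + 1) ^ 2 - 4 * y ^ 2)) := by ring
      rw [this, htb']; ring)
  have e1 : ∀ (t b : ℝ), t ^ 2 + b ^ 2 = 2120 →
      ((111 + t) * x + b) ^ 2 + ((111 + t) * y) ^ 2 + (b * x + (111 - t)) ^ 2 + (b * y) ^ 2 =
      14441 * (x ^ 2 + y ^ 2 + 1) + (222 * t * (x ^ 2 + y ^ 2 - 1) + 444 * b * x) := by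
    intro t b h
    linear_combination (x ^ 2 + y ^ 2 + 1) * h
  rcases key with h | h | h | h
  · refine ⟨true, Or.inl ?_⟩
    unfold opn
    rw [q_letter]
    simp only [la, lb, lc, ld, if_true, hi1, hi2, hi3, hi4]
    push_cast
    have := e1 t b htb'
    rw [← hx, ← hy]
    linarith
  · refine ⟨false, Or.inl ?_⟩
    unfold opn
    rw [q_letter]
    simp only [la, lb, lc, ld, hi1, hi2, hi3, hi4, Bool.false_eq_true, if_false]
    push_cast
    have := e1 (-t) (-b) (by rw [← htb']; ring)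
    rw [← hx, ← hy]
    have e2 : ((111 - (t : ℝ)) * x + -b) ^ 2 + ((111 - t) * y) ^ 2 + (-b * x + (111 + t)) ^ 2 +
      (-b * y) ^ 2 = ((111 + -(t : ℝ)) * x + -b) ^ 2 + ((111 + -t) * y) ^ 2 +
        (-b * x + (111 - -t)) ^ 2 + (-b * y) ^ 2 := by ring
    linarith
  · refine ⟨true, Or.inr ?_⟩
    unfold opn
    rw [q_letter]
    simp only [la, lb, lc, ld, if_true, hj1, hj2, hj3, hj4]
    push_cast
    have := e1 (-b) t (by rw [← htb']; ring)
    rw [← hx, ← hy]
    have e2 : ((111 - (b : ℝ)) * x + t) ^ 2 + ((111 - b) * y) ^ 2 + (t * x + (111 + b)) ^ 2 +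
      (t * y) ^ 2 = ((111 + -(b : ℝ)) * x + t) ^ 2 + ((111 + -b) * y) ^ 2 +
        (t * x + (111 - -b)) ^ 2 + (t * y) ^ 2 := by ring
    linarith
  · refine ⟨false, Or.inr ?_⟩
    unfold opn
    rw [q_letter]
    simp only [la, lb, lc, ld, hj1, hj2, hj3, hj4, Bool.false_eq_true, if_false]
    push_cast
    have := e1 b (-t) (by rw [← htb']; ring)
    rw [← hx, ← hy]
    have e2 : ((111 + (b : ℝ)) * x + -t) ^ 2 + ((111 + b) * y) ^ 2 + (-t * x + (111 - b)) ^ 2 +
      (-t * y) ^ 2 = ((111 + (b : ℝ)) * x + -t) ^ 2 + ((111 + b) * y) ^ 2 +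
        (-(t : ℝ) * x + (111 - b)) ^ 2 + (-t * y) ^ 2 := by ring
    linarith

/-- Five classes of letters. -/
def key5 (x : L7) : Fin 5 :=
  if x.1 = 0 then (if x.2 then 0 else 1) else if x.1.val ≤ 2 then 2 else if x.1.val ≤ 4 then 3 else 4

theorem exists_key (z : ℍ) (hz : q z ≤ 4) (k : Fin 5) : ∃ x, opn z x ∧ key5 x = k := by
  fin_cases k
  · exact ⟨(0, true), open_rot z hz true, by decide⟩
  · exact ⟨(0, false), open_rot z hz false, by decide⟩
  · obtain ⟨e, h | h⟩ := open_pair z hz 1 2 2 46 (by decide) (by decide) (by decide) (by decide)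
      (by decide) (by decide) (by decide) (by decide) (by norm_num)
    · exact ⟨_, h, by cases e <;> decide⟩
    · exact ⟨_, h, by cases e <;> decide⟩
  · obtain ⟨e, h | h⟩ := open_pair z hz 3 4 26 38 (by decide) (by decide) (by decide) (by decide)
      (by decide) (by decide) (by decide) (by decide) (by norm_num)
    · exact ⟨_, h, by cases e <;> decide⟩
    · exact ⟨_, h, by cases e <;> decide⟩
  · obtain ⟨e, h | h⟩ := open_pair z hz 5 6 38 26 (by decide) (by decide) (by decide) (by decide)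
      (by decide) (by decide) (by decide) (by decide) (by norm_num)
    · exact ⟨_, h, by cases e <;> decide⟩
    · exact ⟨_, h, by cases e <;> decide⟩

/-- Four open letters that avoid a given letter. -/
theorem exists_four (z : ℍ) (hz : q z ≤ 4) (h : L7) :
    ∃ f : Fin 4 → L7, Function.Injective f ∧ ∀ i, opn z (f i) ∧ f i ≠ h := by
  classical
  choose x hx1 hx2 using exists_key z hz
  have hxinj : Function.Injective x := by
    intro i j hij
    rw [← hx2 i, ← hx2 j, hij]
  have hcard : 4 ≤ ((Finset.univ.image x).erase h).card := by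
    have h1 : (Finset.univ.image x).card = 5 := by
      rw [Finset.card_image_of_injective _ hxinj]; rfl
    have h2 := Finset.pred_card_le_card_erase (s := Finset.univ.image x) (a := h)
    omega
  obtain ⟨t, ht, htc⟩ := Finset.exists_subset_card_eq hcard
  let e := t.equivFinOfCardEq htc
  refine ⟨fun i => (e.symm i).1, ?_, ?_⟩
  · intro i j hij
    exact e.symm.injective (Subtype.ext hij)
  · intro i
    have h1 := ht (e.symm i).2
    rw [Finset.mem_erase] at h1
    obtain ⟨h2, h3⟩ := h1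
    rw [Finset.mem_image] at h3
    obtain ⟨k, -, hk⟩ := h3
    refine ⟨?_, h2⟩
    show opn z (e.symm i).1
    rw [← hk]; exact hx1 k

/-- The orbit relation. -/
def orel : Setoid ℍ where
  r z w := ∃ u : FreeGroup (Fin 7), Phi u • z = w
  iseqv := by
    refine ⟨fun z => ⟨1, by simp⟩, ?_, ?_⟩
    · rintro z w ⟨u, rfl⟩
      exact ⟨u⁻¹, by rw [_root_.map_inv, inv_smul_smul]⟩
    · rintro z w v ⟨u, rfl⟩ ⟨u', rfl⟩
      exact ⟨u' * u, by rw [_root_.map_mul, mul_smul]⟩

/-- The chosen point of an orbit. -/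
noncomputable def root (z : ℍ) : ℍ := Quotient.out (Quotient.mk orel z)

theorem exists_word (z : ℍ) : ∃ u : FreeGroup (Fin 7), Phi u • root z = z := by
  have : orel.r (root z) z := Quotient.exact (Quotient.out_eq (Quotient.mk orel z))
  exact this

/-- The element which moves the chosen point to a given point. -/
noncomputable def word (z : ℍ) : FreeGroup (Fin 7) := (exists_word z).choose

theorem word_spec (z : ℍ) : Phi (word z) • root z = z := (exists_word z).choose_spec

theorem root_smul (v : FreeGroup (Fin 7)) (z : ℍ) : root (Phi v • z) = root z := by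
  unfold root
  congr 1
  apply Quotient.sound
  exact ⟨v⁻¹, by rw [_root_.map_inv, inv_smul_smul]⟩

theorem root_not_mem (z : ℍ) (hz : z ∉ Dset) : root z ∉ Dset := by
  have h : root z = Phi (word z)⁻¹ • z := by
    rw [_root_.map_inv, eq_inv_smul_iff]
    exact word_spec z
  rw [h]
  exact not_mem_Dset_smul _ _ hz

theorem word_smul (v : FreeGroup (Fin 7)) (z : ℍ) (hz : z ∉ Dset) :
    word (Phi v • z) = v * word z := by
  apply free_smul _ _ (root z) (root_not_mem z hz)
  have h1 := word_spec (Phi v • z)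
  rw [root_smul] at h1
  rw [h1, _root_.map_mul, mul_smul, word_spec]

/-- The disc without the exceptional points. -/
abbrev Yset : Type := {z : ℍ // q z ≤ 4 ∧ z ∉ Dset}

/-- The letter which would lead back. -/
noncomputable def back (z : ℍ) : L7 :=
  match (word z).toWord with
  | [] => (0, true)
  | x :: _ => linv x

/-- The four letters that lead to the children. -/
noncomputable def sel (z : Yset) : Fin 4 → L7 := (exists_four z.1 z.2.1 (back z.1)).choose

theorem sel_inj (z : Yset) : Function.Injective (sel z) :=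
  (exists_four z.1 z.2.1 (back z.1)).choose_spec.1

theorem sel_opn (z : Yset) (i : Fin 4) : opn z.1 (sel z i) :=
  ((exists_four z.1 z.2.1 (back z.1)).choose_spec.2 i).1

theorem sel_ne (z : Yset) (i : Fin 4) : sel z i ≠ back z.1 :=
  ((exists_four z.1 z.2.1 (back z.1)).choose_spec.2 i).2

/-- The children. -/
noncomputable def chl (z : Yset) (i : Fin 4) : Yset :=
  ⟨Phi (FreeGroup.mk [sel z i]) • z.1, sel_opn z i, not_mem_Dset_smul _ _ z.2.2⟩

theorem toWord_chl (z : Yset) (i : Fin 4) :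
    (word (chl z i).1).toWord = sel z i :: (word z.1).toWord := by
  show (word (Phi (FreeGroup.mk [sel z i]) • z.1)).toWord = _
  rw [word_smul _ _ z.2.2]
  conv_lhs => rw [← mk_toWord (x := word z.1)]
  rw [mul_mk, toWord_mk]
  have hne := sel_ne z i
  unfold back at hne
  have hred : IsReduced (sel z i :: (word z.1).toWord) := by
    have h0 : IsReduced (word z.1).toWord := isReduced_toWord
    cases hw : (word z.1).toWord with
    | nil => exact IsReduced.singleton
    | cons x L =>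
      rw [hw] at hne h0
      rw [isReduced_cons_cons]
      refine ⟨?_, h0⟩
      intro h1
      by_contra h2
      apply hne
      show sel z i = linv x
      unfold linv
      rw [Prod.ext_iff]
      refine ⟨h1, ?_⟩
      show (sel z i).2 = !x.2
      revert h2
      cases (sel z i).2 <;> cases x.2 <;> simp
  exact hred.reduce_eq

/-- The depth of a point. -/
noncomputable def dep (z : Yset) : ℕ := (word z.1).toWord.length

theorem dep_chl (z : Yset) (i : Fin 4) : dep z < dep (chl z i) := by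
  unfold dep
  rw [toWord_chl, List.length_cons]
  omega

theorem root_chl (z : Yset) (i : Fin 4) : root (chl z i).1 = root z.1 :=
  root_smul _ _

theorem chl_inj (z z' : Yset) (i i' : Fin 4) (h : chl z i = chl z' i') : z = z' ∧ i = i' := by
  have h1 := toWord_chl z i
  have h2 := toWord_chl z' i'
  rw [h, h2] at h1
  simp only [List.cons.injEq] at h1
  obtain ⟨h3, h4⟩ := h1
  have h5 : word z'.1 = word z.1 := toWord_injective h4
  have h6 : root z'.1 = root z.1 := by rw [← root_chl z i, ← root_chl z' i', h]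
  have h7 : z = z' := by
    apply Subtype.ext
    rw [← word_spec z.1, ← word_spec z'.1, h5, h6]
  refine ⟨h7, ?_⟩
  subst h7
  exact (sel_inj z h3).symm

/-- A free action of the free group of rank two whose generators are piecewise letters. -/
theorem exists_action : ∃ A : FreeGroup (Fin 2) →* Equiv.Perm Yset,
    (∀ w y, A w y = y → w = 1) ∧
    ∀ (a : Fin 2) (y : Yset), ∃ x : L7, (A (FreeGroup.of a) y : ℍ) = Phi (FreeGroup.mk [x]) • y.1 := by
  refine ⟨act2 chl dep dep_chl chl_inj, fun w y h => act2_free chl dep dep_chl chl_inj w y h, ?_⟩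
  intro a y
  rcases act2_of chl dep dep_chl chl_inj a y with ⟨i, h⟩ | ⟨i, h⟩
  · refine ⟨sel y i, ?_⟩
    rw [h]
    rfl
  · set y' := act2 chl dep dep_chl chl_inj (FreeGroup.of a) y with hy'
    refine ⟨linv (sel y' i), ?_⟩
    have h1 : y.1 = Phi (FreeGroup.mk [sel y' i]) • y'.1 := by
      conv_lhs => rw [h]
      rfl
    rw [h1]
    have h2 : FreeGroup.mk [linv (sel y' i)] = (FreeGroup.mk [sel y' i])⁻¹ := by
      rw [FreeGroup.inv_mk]; rfl
    rw [h2, _root_.map_inv, inv_smul_smul]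

end Pool.Agent.V11106.PI
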