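import Mathlib

/-!
# From four children to free actions of the free group of rank two

A set on which each point has four children, no point being a child in two ways and the children
being deeper, splits into copies of the Cayley graph of the free group of rank two all of whose edges
join a point and one of its children.
-/

namespace Pool.Agent.V11106.PI

open FreeGroup

/-- The letters of the free group of rank two. -/
abbrev L2 := Fin 2 × Bool

/-- The inverse letter. -/
def linv {α : Type*} (z : α × Bool) : α × Bool := (z.1, !z.2)

/-- A numbering of the letters. -/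
def num (z : L2) : Fin 4 := if z.1 = 0 then (if z.2 then 0 else 1) else (if z.2 then 2 else 3)

/-- The letter with a given number. -/
def unum (i : Fin 4) : L2 :=
  if i = 0 then (0, true) else if i = 1 then (0, false) else if i = 2 then (1, true) else (1, false)

theorem num_unum : ∀ i : Fin 4, num (unum i) = i := by decide

theorem unum_num : ∀ z : L2, unum (num z) = z := by decide

theorem num_inj : ∀ z z' : L2, num z = num z' → z = z' := by decide

theorem sub_ne : ∀ z z' : L2, z ≠ linv z' → num z - num (linv z') - 1 ≠ 3 := by decide

theorem sub_inj : ∀ z z' w : L2, num z - num (linv w) - 1 = num z' - num (linv w) - 1 → z = z' := by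
  decide

theorem exists_sub : ∀ (w : L2) (i : Fin 4), i ≠ 3 →
    ∃ z : L2, num z - num (linv w) - 1 = i ∧ z ≠ linv w := by decide

/-- The number of the child with the first letter `z` in front of a word. -/
def idx (z : L2) : List L2 → Fin 4
  | [] => num z
  | w :: _ => num z - num (linv w) - 1

section

variable {Y : Type*} (child : Y → Fin 4 → Y) (depth : Y → ℕ)
  (hd : ∀ y i, depth y < depth (child y i))
  (hinj : ∀ y y' i i', child y i = child y' i' → y = y' ∧ i = i')

/-- The edge from a point to its parent is kept: the points without such an edge keep four children,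
the others the first three. -/
def kept (y : Y) : Prop :=
  WellFounded.fix (C := fun _ => Prop) (measure depth).wf
    (fun y ih => ∃ (y' : Y) (i : Fin 4) (h : y = child y' i),
      (ih y' (by rw [h]; exact hd y' i) → i ≠ 3)) y

include hinj in
omit hinj in
theorem kept_iff (y : Y) : kept child depth hd y ↔
    ∃ (y' : Y) (i : Fin 4), y = child y' i ∧ (kept child depth hd y' → i ≠ 3) := by
  unfold kept
  rw [WellFounded.fix_eq]
  constructor
  · rintro ⟨y', i, h, h'⟩; exact ⟨y', i, h, h'⟩
  · rintro ⟨y', i, h, h'⟩; exact ⟨y', i, h, h'⟩

/-- The point at the end of a word from a point. -/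
def walk (r : Y) : List L2 → Y
  | [] => r
  | z :: L => child (walk r L) (idx z L)

include hinj in
theorem kept_child (y : Y) (i : Fin 4) : kept child depth hd (child y i) ↔
    (kept child depth hd y → i ≠ 3) := by
  rw [kept_iff]
  constructor
  · rintro ⟨y', i', h, h'⟩
    obtain ⟨rfl, rfl⟩ := hinj _ _ _ _ h
    exact h'
  · intro h
    exact ⟨y, i, rfl, h⟩

theorem reduced_cons_iff (z w : L2) (L : List L2) :
    IsReduced (z :: w :: L) ↔ z ≠ linv w ∧ IsReduced (w :: L) := by
  rw [isReduced_cons_cons]
  apply and_congr_left
  intro _
  obtain ⟨z1, z2⟩ := z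
  obtain ⟨w1, w2⟩ := w
  simp only [linv, ne_eq, Prod.mk.injEq]
  cases z2 <;> cases w2 <;> simp

theorem reduced_tail {z : L2} {L : List L2} (h : IsReduced (z :: L)) : IsReduced L := by
  cases L with
  | nil => exact IsReduced.nil
  | cons w L => exact ((reduced_cons_iff z w L).1 h).2

include hinj in
theorem kept_walk (r : Y) (hr : ¬ kept child depth hd r) (z : L2) (L : List L2)
    (h : IsReduced (z :: L)) : kept child depth hd (walk child r (z :: L)) := by
  show kept child depth hd (child (walk child r L) (idx z L))
  rw [kept_child child depth hd hinj]
  intro hk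
  cases L with
  | nil => exact absurd hk hr
  | cons w L => exact sub_ne z w ((reduced_cons_iff z w L).1 h).1

include hinj in
theorem walk_inj (r r' : Y) (hr : ¬ kept child depth hd r) (hr' : ¬ kept child depth hd r') :
    ∀ L L' : List L2, IsReduced L → IsReduced L' → walk child r L = walk child r' L' →
      r = r' ∧ L = L' := by
  intro L
  induction L with
  | nil =>
    intro L' _ h' he
    cases L' with
    | nil => exact ⟨he, rfl⟩
    | cons z L' =>
      exfalso
      apply hr
      have : kept child depth hd (walk child r' (z :: L')) := kept_walk child depth hd hinj r' hr' z L' h'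
      rw [← he] at this
      exact this
  | cons z L ih =>
    intro L' h h' he
    cases L' with
    | nil =>
      exfalso
      apply hr'
      have : kept child depth hd (walk child r (z :: L)) := kept_walk child depth hd hinj r hr z L h
      rw [he] at this
      exact this
    | cons z' L' =>
      obtain ⟨h1, h2⟩ := hinj _ _ _ _ he
      obtain ⟨h3, h4⟩ := ih L' (reduced_tail h) (reduced_tail h') h1
      subst h4
      refine ⟨h3, ?_⟩
      congr 1
      cases L with
      | nil => exact num_inj _ _ h2
      | cons w L => exact sub_inj _ _ w h2

include hinj in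
theorem walk_surj : ∀ (n : ℕ) (y : Y), depth y ≤ n →
    ∃ (r : Y) (L : List L2), ¬ kept child depth hd r ∧ IsReduced L ∧ walk child r L = y := by
  intro n
  induction n with
  | zero =>
    intro y hy
    refine ⟨y, [], ?_, IsReduced.nil, rfl⟩
    rw [kept_iff]
    rintro ⟨y', i, rfl, -⟩
    have := hd y' i
    omega
  | succ n ih =>
    intro y hy
    by_cases hk : kept child depth hd y
    · rw [kept_iff] at hk
      obtain ⟨y', i, rfl, hi⟩ := hk
      obtain ⟨r, L, hr, hL, he⟩ := ih y' (by have := hd y' i; omega)
      cases L with
      | nil =>
        refine ⟨r, [unum i], hr, IsReduced.singleton, ?_⟩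
        show child r (num (unum i)) = _
        rw [num_unum]
        have he' : r = y' := he
        rw [he']
      | cons w L =>
        have hk' : kept child depth hd y' := by
          rw [← he]; exact kept_walk child depth hd hinj r hr w L hL
        obtain ⟨z, hz, hz'⟩ := exists_sub w i (hi hk')
        refine ⟨r, z :: w :: L, hr, (reduced_cons_iff z w L).2 ⟨hz', hL⟩, ?_⟩
        show child (walk child r (w :: L)) (num z - num (linv w) - 1) = _
        rw [hz, he]
    · exact ⟨y, [], hk, IsReduced.nil, rfl⟩

/-- The points from which the copies of the free group start. -/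
def Rt : Type _ := {r : Y // ¬ kept child depth hd r}

/-- The copies of the free group. -/
noncomputable def theta : Rt child depth hd × FreeGroup (Fin 2) ≃ Y :=
  Equiv.ofBijective (fun p => walk child p.1.1 p.2.toWord) (by
    constructor
    · rintro ⟨⟨r, hr⟩, w⟩ ⟨⟨r', hr'⟩, w'⟩ h
      obtain ⟨h1, h2⟩ := walk_inj child depth hd hinj r r' hr hr' _ _ isReduced_toWord
        isReduced_toWord h
      have h3 := toWord_injective h2
      subst h1
      subst h3
      rfl
    · intro y
      obtain ⟨r, L, hr, hL, he⟩ := walk_surj child depth hd hinj _ y le_rfl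
      refine ⟨(⟨r, hr⟩, FreeGroup.mk L), ?_⟩
      show walk child r (FreeGroup.mk L).toWord = y
      rw [toWord_mk, hL.reduce_eq, he])

/-- The action of the free group. -/
noncomputable def act2 : FreeGroup (Fin 2) →* Equiv.Perm Y where
  toFun w := (theta child depth hd hinj).symm.trans
    ((Equiv.prodCongr (Equiv.refl _) (Equiv.mulLeft w)).trans (theta child depth hd hinj))
  map_one' := by
    ext y
    simp
  map_mul' w w' := by
    ext y
    simp only [Equiv.trans_apply, Equiv.prodCongr_apply, Equiv.Perm.mul_apply,
      Equiv.symm_apply_apply, Equiv.coe_refl, Equiv.coe_mulLeft, Prod.map_apply', id]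
    simp [mul_assoc, Prod.map]

theorem act2_theta (w : FreeGroup (Fin 2)) (r : Rt child depth hd) (u : FreeGroup (Fin 2)) :
    act2 child depth hd hinj w (theta child depth hd hinj (r, u)) =
      theta child depth hd hinj (r, w * u) := by
  simp [act2]

theorem act2_free (w : FreeGroup (Fin 2)) (y : Y) (h : act2 child depth hd hinj w y = y) : w = 1 := by
  obtain ⟨⟨r, u⟩, rfl⟩ := (theta child depth hd hinj).surjective y
  rw [act2_theta] at h
  have := (theta child depth hd hinj).injective h
  simp only [Prod.mk.injEq, true_and] at this
  exact mul_eq_right.1 this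

theorem reduce_cons_of (z : L2) (L : List L2) (hL : IsReduced L) :
    IsReduced (z :: L) ∨ ∃ L', L = linv z :: L' := by
  cases L with
  | nil => exact Or.inl IsReduced.singleton
  | cons w L =>
    by_cases h : z = linv w
    · right
      refine ⟨L, ?_⟩
      rw [h]
      simp [linv]
    · left
      exact (reduced_cons_iff z w L).2 ⟨h, hL⟩

/-- Each generator moves each point to a child or to the parent. -/
theorem act2_of (a : Fin 2) (y : Y) :
    (∃ i, act2 child depth hd hinj (FreeGroup.of a) y = child y i) ∨
    (∃ i, y = child (act2 child depth hd hinj (FreeGroup.of a) y) i) := by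
  obtain ⟨⟨r, u⟩, rfl⟩ := (theta child depth hd hinj).surjective y
  rw [act2_theta]
  have key : ∀ (z : L2) (u v : FreeGroup (Fin 2)), v = FreeGroup.mk [z] * u →
      IsReduced (z :: u.toWord) →
      theta child depth hd hinj (r, v) = child (theta child depth hd hinj (r, u)) (idx z u.toWord) := by
    intro z u v hv hz
    have h1 : v.toWord = z :: u.toWord := by
      rw [hv]
      conv_lhs => rw [← mk_toWord (x := u)]
      rw [mul_mk, toWord_mk]
      exact hz.reduce_eq
    show walk child r.1 v.toWord = child (walk child r.1 u.toWord) _
    rw [h1]
    rfl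
  rcases reduce_cons_of (a, true) u.toWord isReduced_toWord with h | ⟨L', h⟩
  · left
    exact ⟨_, key (a, true) u _ rfl h⟩
  · right
    refine ⟨_, key (linv (a, true)) (FreeGroup.of a * u) u ?_ ?_⟩
    · have : FreeGroup.mk [linv (a, true)] = (FreeGroup.of a)⁻¹ := by
        rfl
      rw [this]
      group
    · have h2 : (FreeGroup.of a * u).toWord = L' := by
        have h3 : FreeGroup.of a * u = FreeGroup.mk L' := by
          have h4 : u = FreeGroup.mk (linv (a, true) :: L') := by rw [← h, mk_toWord]
          have h5 : FreeGroup.mk (linv (a, true) :: L') = (FreeGroup.of a)⁻¹ * FreeGroup.mk L' := by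
            rfl
          rw [h4, h5]
          group
        rw [h3, toWord_mk]
        have h6 : IsReduced (linv (a, true) :: L') := by rw [← h]; exact isReduced_toWord
        exact (reduced_tail h6).reduce_eq
      rw [h2, ← h]
      exact isReduced_toWord

end

end Pool.Agent.V11106.PI
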